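import Mathlib

set_option autoImplicit false

open Matrix Module

namespace Pool.Agent.Results.MP_4722b0_al.NoUniversalQ

/-- `M` is an irreducible tridiagonal matrix. -/
def IrredTridiag {K : Type} [Field K] {n : ℕ} (M : Matrix (Fin n) (Fin n) K) : Prop :=
  (∀ i j : Fin n, (i.val + 1 < j.val ∨ j.val + 1 < i.val) → M i j = 0) ∧
  (∀ i j : Fin n, (i.val + 1 = j.val ∨ j.val + 1 = i.val) → M i j ≠ 0)

/-- `M` is a diagonal matrix. -/
def Diag {K : Type} [Field K] {n : ℕ} (M : Matrix (Fin n) (Fin n) K) : Prop :=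
  ∀ i j : Fin n, i ≠ j → M i j = 0

/-- There is a basis of `V` in which `X` is diagonal while `Y`, `Z` are both irreducible
tridiagonal. -/
def HasAdaptedBasis {K V : Type} [Field K] [AddCommGroup V] [Module K V]
    (X Y Z : V →ₗ[K] V) : Prop :=
  ∃ (n : ℕ) (b : Basis (Fin n) K V), Diag (LinearMap.toMatrix b b X) ∧
    IrredTridiag (LinearMap.toMatrix b b Y) ∧ IrredTridiag (LinearMap.toMatrix b b Z)

/-- Leonard triples. -/
def IsLeonardTriple {K V : Type} [Field K] [AddCommGroup V] [Module K V]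
    (A B C : V →ₗ[K] V) : Prop :=
  HasAdaptedBasis A B C ∧ HasAdaptedBasis B A C ∧ HasAdaptedBasis C A B

/-- The `K`-linear span of `I, A, B, C`. -/
def Span4 {K V : Type} [Field K] [AddCommGroup V] [Module K V]
    (A B C : V →ₗ[K] V) : Submodule K (V →ₗ[K] V) :=
  Submodule.span K {LinearMap.id, A, B, C}

section
variable {K : Type} [Field K]

/-- The base change by an invertible matrix. -/
noncomputable def bas (P Q : Matrix (Fin 3) (Fin 3) K) (h1 : Q * P = 1) (h2 : P * Q = 1) :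
    Basis (Fin 3) K (Fin 3 → K) :=
  (Pi.basisFun K (Fin 3)).map (Matrix.toLin'OfInv h1 h2)

theorem toMatrix_bas (P Q : Matrix (Fin 3) (Fin 3) K) (h1 : Q * P = 1) (h2 : P * Q = 1)
    (M : Matrix (Fin 3) (Fin 3) K) :
    LinearMap.toMatrix (bas P Q h1 h2) (bas P Q h1 h2) (Matrix.toLin' M) = Q * M * P := by
  ext i j
  rw [LinearMap.toMatrix_apply]
  have e1 : (bas P Q h1 h2) j = P *ᵥ (Pi.single j 1) := by
    simp [bas, Basis.map_apply, Matrix.toLin'OfInv]
  have e2 : ∀ v, (bas P Q h1 h2).repr v i = (Q *ᵥ v) i := by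
    intro v
    simp [bas, Basis.map_repr, Matrix.toLin'OfInv]
  rw [e2, e1, Matrix.toLin'_apply, Matrix.mulVec_mulVec, Matrix.mulVec_mulVec]
  simp

end

def mA : Matrix (Fin 3) (Fin 3) ℚ := !![0, 0, 0; 0, 2, 0; 0, 0, 6]
def mB : Matrix (Fin 3) (Fin 3) ℚ := !![4, 16/3, 0; 1, 3, 5/3; 0, 1, 1]
def mC : Matrix (Fin 3) (Fin 3) ℚ := !![4, -16/3, 0; -1, 3, -5/3; 0, -1, 1]

def P1 : Matrix (Fin 3) (Fin 3) ℚ := !![4, 8, 40; -3, -3, 15; 3, -3, 3]
def Q1 : Matrix (Fin 3) (Fin 3) ℚ := !![1/36, -1/9, 5/27; 1/24, -1/12, -5/36; 1/72, 1/36, 1/108]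
def P2 : Matrix (Fin 3) (Fin 3) ℚ := !![4, 8, 40; 3, 3, -15; 3, -3, 3]
def Q2 : Matrix (Fin 3) (Fin 3) ℚ := !![1/36, 1/9, 5/27; 1/24, 1/12, -5/36; 1/72, -1/36, 1/108]

theorem q1p1 : Q1 * P1 = 1 := by decide +kernel
theorem p1q1 : P1 * Q1 = 1 := by decide +kernel
theorem q2p2 : Q2 * P2 = 1 := by decide +kernel
theorem p2q2 : P2 * Q2 = 1 := by decide +kernel

/-- Base change of a rational matrix to a field of characteristic zero. -/
def bc (K : Type) [Field K] [CharZero K] (M : Matrix (Fin 3) (Fin 3) ℚ) :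
    Matrix (Fin 3) (Fin 3) K :=
  M.map (Rat.castHom K)

section
variable (K : Type) [Field K] [CharZero K]

theorem bc_mul (M N : Matrix (Fin 3) (Fin 3) ℚ) : bc K (M * N) = bc K M * bc K N := by
  unfold bc; exact Matrix.map_mul

theorem bc_one : bc K 1 = 1 := by
  unfold bc; exact Matrix.map_one _ (map_zero _) (map_one _)

theorem bc_apply (M : Matrix (Fin 3) (Fin 3) ℚ) (i j : Fin 3) : bc K M i j = ((M i j : ℚ) : K) :=
  rfl

theorem adapted (X Y Z P Q : Matrix (Fin 3) (Fin 3) ℚ) (h1 : Q * P = 1) (h2 : P * Q = 1)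
    (hX : ∀ i j : Fin 3, i ≠ j → (Q * X * P) i j = 0)
    (hY : ∀ i j : Fin 3, (i.val + 1 < j.val ∨ j.val + 1 < i.val) → (Q * Y * P) i j = 0)
    (hY' : ∀ i j : Fin 3, (i.val + 1 = j.val ∨ j.val + 1 = i.val) → (Q * Y * P) i j ≠ 0)
    (hZ : ∀ i j : Fin 3, (i.val + 1 < j.val ∨ j.val + 1 < i.val) → (Q * Z * P) i j = 0)
    (hZ' : ∀ i j : Fin 3, (i.val + 1 = j.val ∨ j.val + 1 = i.val) → (Q * Z * P) i j ≠ 0) :
    HasAdaptedBasis (Matrix.toLin' (bc K X)) (Matrix.toLin' (bc K Y))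
      (Matrix.toLin' (bc K Z)) := by
  have k1 : bc K Q * bc K P = 1 := by rw [← bc_mul, h1, bc_one]
  have k2 : bc K P * bc K Q = 1 := by rw [← bc_mul, h2, bc_one]
  refine ⟨3, bas (bc K P) (bc K Q) k1 k2, ?_, ?_, ?_⟩
  · rw [toMatrix_bas, ← bc_mul, ← bc_mul]
    intro i j h
    rw [bc_apply, hX i j h, Rat.cast_zero]
  · rw [toMatrix_bas, ← bc_mul, ← bc_mul]
    refine ⟨fun i j h => ?_, fun i j h => ?_⟩
    · rw [bc_apply, hY i j h, Rat.cast_zero]
    · rw [bc_apply]; exact Rat.cast_ne_zero.mpr (hY' i j h)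
  · rw [toMatrix_bas, ← bc_mul, ← bc_mul]
    refine ⟨fun i j h => ?_, fun i j h => ?_⟩
    · rw [bc_apply, hZ i j h, Rat.cast_zero]
    · rw [bc_apply]; exact Rat.cast_ne_zero.mpr (hZ' i j h)

theorem triple : IsLeonardTriple (Matrix.toLin' (bc K mA)) (Matrix.toLin' (bc K mB))
    (Matrix.toLin' (bc K mC)) := by
  refine ⟨?_, ?_, ?_⟩
  · exact adapted K _ _ _ 1 1 (by decide +kernel) (by decide +kernel) (by decide +kernel)
      (by decide +kernel) (by decide +kernel) (by decide +kernel) (by decide +kernel)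
  · exact adapted K _ _ _ P1 Q1 q1p1 p1q1 (by decide +kernel)
      (by decide +kernel) (by decide +kernel) (by decide +kernel) (by decide +kernel)
  · exact adapted K _ _ _ P2 Q2 q2p2 p2q2 (by decide +kernel)
      (by decide +kernel) (by decide +kernel) (by decide +kernel) (by decide +kernel)

variable {K}

theorem notmem (q : K) :
    (Matrix.toLin' (bc K mA)) ∘ₗ (Matrix.toLin' (bc K mB))
      - q • ((Matrix.toLin' (bc K mB)) ∘ₗ (Matrix.toLin' (bc K mA)))
      ∉ Span4 (Matrix.toLin' (bc K mA)) (Matrix.toLin' (bc K mB)) (Matrix.toLin' (bc K mC)) := by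
  intro h
  unfold Span4 at h
  rw [Submodule.mem_span_insert] at h
  obtain ⟨a, z, hz, e⟩ := h
  rw [Submodule.mem_span_insert] at hz
  obtain ⟨b, z', hz', e'⟩ := hz
  rw [Submodule.mem_span_pair] at hz'
  obtain ⟨c, d, e''⟩ := hz'
  subst e'' e'
  have key : bc K mA * bc K mB - q • (bc K mB * bc K mA)
      = a • 1 + (b • bc K mA + (c • bc K mB + d • bc K mC)) := by
    apply (Matrix.toLin').injective
    rw [map_sub, map_smul, Matrix.toLin'_mul, Matrix.toLin'_mul]
    simp only [map_add, map_smul, Matrix.toLin'_one]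
    exact e
  have k01 := congrFun (congrFun key 0) 1
  have k10 := congrFun (congrFun key 1) 0
  have k12 := congrFun (congrFun key 1) 2
  have k21 := congrFun (congrFun key 2) 1
  simp [mA, mB, mC, bc_apply, Matrix.mul_apply, Fin.sum_univ_three] at k01 k10 k12 k21
  have k6 : (-6 : K) = 0 := by linear_combination (3 / 16) * k01 - k21
  norm_num at k6

end

/-- Over every field `K` of characteristic zero there is a Leonard triple `A, B, C` on `K ^ 3`
such that for every scalar `q` (zero or not) `AB - qBA` is not in the span of `I, A, B, C`. -/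
theorem result (K : Type) [Field K] [CharZero K] :
    ∃ A B C : (Fin 3 → K) →ₗ[K] (Fin 3 → K), IsLeonardTriple A B C ∧
      ∀ q : K, A ∘ₗ B - q • (B ∘ₗ A) ∉ Span4 A B C :=
  ⟨_, _, _, triple K, notmem⟩

end Pool.Agent.Results.MP_4722b0_al.NoUniversalQ
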